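import Pool.Agent.Helper10K1.ML.Stm

/-!
# Homomorphisms to a finite group pass to the ultraproduct
-/

set_option autoImplicit false

namespace Pool.Agent.Helper57K1.ML

open Filter Pool.Agent.Helper10K1.ML

universe u

/-- limits in finite types -/
theorem exists_lim {Q : Type*} [Finite Q] (U : Ultrafilter ℕ) (f : ℕ → Q) :
    ∃ q, ∀ᶠ N in U, f N = q := by
  obtain ⟨q, hq⟩ := (U.map f).eq_pure_of_finite
  refine ⟨q, ?_⟩
  have h1 : ({q} : Set Q) ∈ U.map f := by
    rw [hq]
    exact Set.mem_singleton q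
  exact h1

theorem lim_unique {Q : Type*} (U : Ultrafilter ℕ) {f : ℕ → Q} {q r : Q}
    (h1 : ∀ᶠ N in U, f N = q) (h2 : ∀ᶠ N in U, f N = r) : q = r := by
  obtain ⟨N, h3, h4⟩ := (h1.and h2).exists
  exact h3.symm.trans h4

/-- the limit homomorphism -/
theorem exists_L (F : ℕ → Type u) [∀ N, Field (F N)] (U : Ultrafilter ℕ)
    (Q : Type u) [Group Q] [Finite Q] (ρ : ∀ N, G (F N) →* Q) :
    ∃ L : (∀ N, G (F N)) →* Q, ∀ g : ∀ N, G (F N), ∀ᶠ N in U, ρ N (g N) = L g := by
  choose L hL using fun g : ∀ N, G (F N) => exists_lim U fun N => ρ N (g N)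
  refine ⟨{ toFun := L, map_one' := ?_, map_mul' := ?_ }, hL⟩
  · refine lim_unique U (hL 1) (Eventually.of_forall fun N => ?_)
    exact map_one (ρ N)
  · intro g h
    refine lim_unique U (hL (g * h)) ?_
    filter_upwards [hL g, hL h] with N h1 h2
    rw [Pi.mul_apply, map_mul, h1, h2]

theorem t_UP : S_UP.{u} := by
  intro hP F _ U j R hR Q _ _ ρ hρ
  obtain ⟨L, hL⟩ := exists_L F U Q ρ
  choose x hx using fun N => hP (F N) (ρ N).ker (MonoidHom.normal_ker (ρ N)) (hρ N)
  -- the orbit is finite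
  have key : ∀ g h : ∀ N, G (F N), L g = L h →
      cls (fun N => SeparableClosure (F N)) U (fun N => g N (x N)) =
        cls (fun N => SeparableClosure (F N)) U fun N => h N (x N) := by
    intro g h hgh
    rw [cls_eq]
    filter_upwards [hL g, hL h] with N h1 h2
    have h3 : (g N)⁻¹ * h N ∈ (ρ N).ker := by
      rw [MonoidHom.mem_ker, map_mul, map_inv, h1, h2, hgh, inv_mul_cancel]
    have h4 := (hx N _).2 h3
    have h5 : g N (((g N)⁻¹ * h N) (x N)) = h N (x N) := by
      rw [← AlgEquiv.mul_apply, mul_inv_cancel_left]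
    rw [h4] at h5
    exact h5
  have hfin : (Set.range fun g : ∀ N, G (F N) =>
      cls (fun N => SeparableClosure (F N)) U fun N => g N (x N)).Finite := by
    classical
    refine (Set.finite_range (fun q : Q => if h : ∃ g, L g = q then
      cls (fun N => SeparableClosure (F N)) U (fun N => (Classical.choose h) N (x N)) else 0)).subset ?_
    rintro _ ⟨g, rfl⟩
    have h1 : ∃ g', L g' = L g := ⟨g, rfl⟩
    refine ⟨L g, ?_⟩
    dsimp only
    rw [dif_pos h1]
    exact key _ _ (Classical.choose_spec h1)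
  obtain ⟨t, ht⟩ := hR.fin x hfin
  -- an open normal subgroup fixing `t`
  obtain ⟨V, hVt⟩ : ∃ V : OpenNormalSubgroup (G (Ul F U)), ∀ γ ∈ V, γ t = t := by
    have hfd : FiniteDimensional (Ul F U)
        (IntermediateField.adjoin (Ul F U) ({t} : Set (SeparableClosure (Ul F U)))) :=
      IntermediateField.adjoin.finiteDimensional (Algebra.IsIntegral.isIntegral t)
    have hopen := IntermediateField.fixingSubgroup_isOpen
      (IntermediateField.adjoin (Ul F U) ({t} : Set (SeparableClosure (Ul F U))))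
    obtain ⟨V, hV⟩ := ProfiniteGrp.exist_openNormalSubgroup_sub_open_nhds_of_one hopen
      (one_mem _)
    refine ⟨V, fun γ hγ => ?_⟩
    have h1 := hV hγ
    exact h1 ⟨t, IntermediateField.mem_adjoin_simple_self _ t⟩
  have hone : ∀ g : ∀ N, G (F N), R g ∈ V → L g = 1 := by
    intro g hg
    have h1 := hR.comp g t x ht
    rw [hVt _ hg, ht, cls_eq] at h1
    refine lim_unique U (hL g) ?_
    filter_upwards [h1] with N h2
    have h3 := (hx N (g N)).1 h2.symm
    exact MonoidHom.mem_ker.1 h3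
  have hwd : ∀ (γ : G (Ul F U)) (g h : ∀ N, G (F N)), (R g)⁻¹ * γ ∈ V → (R h)⁻¹ * γ ∈ V →
      L g = L h := by
    intro γ g h hg hh
    have h1 : R (g⁻¹ * h) ∈ V := by
      have h2 : R (g⁻¹ * h) = ((R g)⁻¹ * γ) * ((R h)⁻¹ * γ)⁻¹ := by
        rw [map_mul, map_inv]
        group
      rw [h2]
      exact mul_mem hg (inv_mem hh)
    have h3 := hone _ h1
    rw [map_mul, map_inv, inv_mul_eq_one] at h3
    exact h3
  have hN : V.toSubgroup.Normal := V.isNormal'
  choose s hs using fun γ => hR.dense V.toSubgroup hN V.isOpen' γ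
  refine ⟨{ toFun := fun γ => L (s γ), map_one' := ?_, map_mul' := ?_ }, ?_, ?_⟩
  · rw [← map_one L]
    refine hwd 1 _ _ (hs 1) ?_
    rw [map_one]
    simp [one_mem]
  · intro γ δ
    rw [← map_mul]
    refine hwd (γ * δ) _ _ (hs _) ?_
    have h1 : (R (s γ * s δ))⁻¹ * (γ * δ) =
        ((R (s δ))⁻¹ * ((R (s γ))⁻¹ * γ) * ((R (s δ))⁻¹)⁻¹) * ((R (s δ))⁻¹ * δ) := by
      rw [map_mul]
      group
    rw [h1]
    exact mul_mem (hN.conj_mem _ (hs γ) _) (hs δ)
  · refine Subgroup.isOpen_mono (H₁ := V.toSubgroup) ?_ V.isOpen'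
    intro γ hγ
    rw [MonoidHom.mem_ker]
    change L (s γ) = 1
    rw [← map_one L]
    refine hwd γ _ _ (hs γ) ?_
    rw [map_one, inv_one, one_mul]
    exact hγ
  · intro g
    have h1 : L g = L (s (R g)) := by
      refine hwd (R g) _ _ ?_ (hs _)
      rw [inv_mul_cancel]
      exact one_mem _
    filter_upwards [hL g] with N h2
    rw [h2]
    exact h1

end Pool.Agent.Helper57K1.ML
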